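import Pool.Agent.Work.MP_f82ddf_M6.Interface

set_option autoImplicit false

/-! # THEOREM M, part M6, block FM: the final statement on finite morphisms -/

namespace Pool.ThmM6

open MvPolynomial Pool.Agent.Work.MP_f82ddf_nt Pool.Agent.Work.MP_f82ddf_nt.DQ

namespace FM

/-- the value at `x` of a polynomial with mapped coefficients -/
theorem aeval_map' {K : Type} [Field K] {m : ℕ} (σ : K →+* ℂ) (x : Fin (m + 1) → Mer)
    (p : MvPolynomial (Fin (m + 1)) K) :
    aeval x (map σ p) = eval₂ ((algebraMap ℂ Mer).comp σ) x p := by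
  rw [aeval_def, eval₂_map]

/-- the elements of the ideal vanish -/
theorem eval_span {K : Type} [Field K] {m : ℕ} (τ : K →+* Mer) (x : Fin (m + 1) → Mer)
    (S : Set (MvPolynomial (Fin (m + 1)) K)) (hS : ∀ F ∈ S, eval₂ τ x F = 0)
    (p : MvPolynomial (Fin (m + 1)) K) (hp : p ∈ Ideal.span S) : eval₂ τ x p = 0 := by
  have h1 : Ideal.span S ≤ RingHom.ker (eval₂Hom τ x) := by
    rw [Ideal.span_le]
    intro F hF
    exact hS F hF
  exact h1 hp

/-- an element algebraic over a field generated by constants is a constant -/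
theorem const_of_alg {ι : Type} (t : ι → Mer) (ht : ∀ j, ∃ c : ℂ, t j = algebraMap ℂ Mer c)
    (z : Mer) (hz : IsAlgebraic (IntermediateField.adjoin ℂ (Set.range t)) z) :
    ∃ c : ℂ, z = algebraMap ℂ Mer c := by
  have h1 : Algebra.IsAlgebraic ℂ (IntermediateField.adjoin ℂ (Set.range t)) := by
    refine IntermediateField.isAlgebraic_adjoin ?_
    rintro _ ⟨j, rfl⟩
    obtain ⟨c, hc⟩ := ht j
    rw [hc]
    exact isIntegral_algebraMap
  have h2 : IsAlgebraic ℂ z := IsAlgebraic.restrictScalars ℂ hz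
  have h3 : IsIntegral ℂ z := h2.isIntegral
  have h4 : (minpoly ℂ z).degree = 1 :=
    IsAlgClosed.degree_eq_one_of_irreducible ℂ (minpoly.irreducible h3)
  obtain ⟨c, hc⟩ := minpoly.mem_range_of_degree_eq_one ℂ z h4
  exact ⟨c, hc.symm⟩

end FM

theorem p_FM (_h1 : Stmt_VAN) (h2 : Stmt_NCZ) (h3 : Stmt_ALQ) (h4 : Stmt_TRI) (h5 : Stmt_DEH)
    (h6 : Pool.ThmM0.Stmt_HOMR) : Stmt_FM := by
  intro K _ m q e S h he hS hh hfin σ x i₀ hx0 hx y hy
  obtain ⟨N, hN⟩ := h2 K m q e S h hS hh hfin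
  choose b hb1 hb2 using hN
  set τ : K →+* Mer := (algebraMap ℂ Mer).comp σ with hτ
  have hb' : ∀ i j, (map σ (b i j)).IsHomogeneous N := fun i j => (hb1 i j).map σ
  have hrel : ∀ i, x i ^ (N + e) = ∑ j, aeval x (map σ (b i j)) * y j := by
    intro i
    have h7 := FM.eval_span τ x S hx _ (hb2 i)
    rw [eval₂_sub, eval₂_pow, eval₂_X, eval₂_sum, sub_eq_zero] at h7
    rw [h7]
    refine Finset.sum_congr rfl fun j _ => ?_
    rw [eval₂_mul, FM.aeval_map', hy j]
  have hNe : N + e ≠ 0 := by omega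
  have hex : ∃ j, y j ≠ 0 := by
    by_contra hcon
    push Not at hcon
    apply hx0
    have h7 : x i₀ ^ (N + e) = 0 := by
      rw [hrel i₀]
      refine Finset.sum_eq_zero fun j _ => ?_
      rw [hcon j, mul_zero]
    exact pow_eq_zero_iff hNe |>.1 h7
  refine ⟨hex, ?_, ?_⟩
  · intro M hyr s
    obtain ⟨j₀, hj0⟩ := hex
    by_contra hcon
    push Not at hcon
    have hP : ∀ (d : ℕ) (P : MvPolynomial (Fin (M + 2)) ℂ), P ≠ 0 → P.IsHomogeneous d →
        aeval (fun i => x (s i)) P ≠ 0 := fun d P hP0 hPh => hcon d P hP0 hPh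
    have hs0 : x (s 0) ≠ 0 := by
      have h7 := hP 1 (X 0) (X_ne_zero 0) (isHomogeneous_X ℂ 0)
      rwa [aeval_X] at h7
    have hind := h6 M (fun i => x (s i)) hs0 hP
    have halg := h3 Mer m q e N x y (fun i j => map σ (b i j)) he hb' hrel (s 0) j₀ hs0 hj0
    obtain ⟨ι, hι⟩ := h4 q (M + 1) (fun j => y j / y j₀)
      (fun j : Fin (M + 1) => x (s j.succ) / x (s 0)) hind (fun j => halg (s j.succ))
    have hd := h5 M (fun i => y ((Fin.cons j₀ ι : Fin (M + 2) → Fin q) i))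
      (by simpa using hj0) (hyr (Fin.cons j₀ ι))
    apply hd
    simpa using hι
  · intro j₀ hj0 hc i
    have halg := h3 Mer m q e N x y (fun i j => map σ (b i j)) he hb' hrel i₀ j₀ hx0 hj0 i
    obtain ⟨c, hc'⟩ := FM.const_of_alg (fun j => y j / y j₀) (by
      intro j
      obtain ⟨c, hc⟩ := hc j
      refine ⟨c, ?_⟩
      show y j / y j₀ = _
      rw [hc, mul_div_cancel_right₀ _ hj0]) _ halg
    refine ⟨c, ?_⟩
    rw [← hc', div_mul_cancel₀ _ hx0]

end Pool.ThmM6
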