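import Pool.Agent.Work.MP_f82ddf_M6.Interface

set_option autoImplicit false

/-! # Block INT of part M6 (helper72): the determinant trick -/

namespace Pool.ThmM6

open MvPolynomial Pool.Agent.Work.MP_f82ddf_nt Pool.Agent.Work.MP_f82ddf_nt.DQ

namespace INT

/-- the monomial with the exponents `α` -/
def mon {M : Type} [Field M] {m : ℕ} (x : Fin (m + 1) → M) (α : Fin (m + 1) → ℕ) : M :=
  ∏ i, x i ^ α i

theorem mon_add {M : Type} [Field M] {m : ℕ} (x : Fin (m + 1) → M) (α β : Fin (m + 1) → ℕ) :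
    mon x (α + β) = mon x α * mon x β := by
  unfold mon
  rw [← Finset.prod_mul_distrib]
  exact Finset.prod_congr rfl fun i _ => by rw [Pi.add_apply, pow_add]

theorem mon_single {M : Type} [Field M] {m : ℕ} (x : Fin (m + 1) → M) (i : Fin (m + 1)) (k : ℕ) :
    mon x (Pi.single i k) = x i ^ k := by
  unfold mon
  rw [Finset.prod_eq_single i]
  · rw [Pi.single_eq_same]
  · intro j _ hj
    rw [Pi.single_eq_of_ne hj, pow_zero]
  · intro h
    exact absurd (Finset.mem_univ i) h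

theorem fin_set (m D : ℕ) : {α : Fin (m + 1) → ℕ | ∑ i, α i = D}.Finite := by
  refine (Set.Finite.pi' (fun _ : Fin (m + 1) => Set.finite_Iic D)).subset ?_
  intro α hα i
  have h1 : α i ≤ ∑ j, α j := Finset.single_le_sum (fun _ _ => Nat.zero_le _) (Finset.mem_univ i)
  exact h1.trans (le_of_eq hα)

variable {M : Type} [Field M] [Algebra ℂ M]

/-- the submodule spanned by the monomials of degree `D` -/
def V (A : Subalgebra ℂ M) {m : ℕ} (x : Fin (m + 1) → M) (D : ℕ) : Submodule A M :=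
  Submodule.span A (mon x '' {α | ∑ i, α i = D})

theorem mon_mem (A : Subalgebra ℂ M) {m : ℕ} (x : Fin (m + 1) → M) (D : ℕ)
    (α : Fin (m + 1) → ℕ) (hα : ∑ i, α i = D) : mon x α ∈ V A x D :=
  Submodule.subset_span ⟨α, hα, rfl⟩

theorem form_mem (A : Subalgebra ℂ M) {m : ℕ} (x : Fin (m + 1) → M) (D N : ℕ)
    (γ : Fin (m + 1) → ℕ) (hγ : ∑ i, γ i + N = D) (F : MvPolynomial (Fin (m + 1)) ℂ)
    (hF : F.IsHomogeneous N) : mon x γ * aeval x F ∈ V A x D := by
  rw [aeval_def, eval₂_eq', Finset.mul_sum]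
  refine Submodule.sum_mem _ fun d hd => ?_
  have h1 : ∑ i, d i = N := by
    have h2 := hF (mem_support_iff.1 hd)
    rw [Finsupp.weight_apply, Finsupp.sum_fintype _ _ (fun _ => by simp)] at h2
    simpa using h2
  have h3 : mon x γ * (algebraMap ℂ M (coeff d F) * ∏ i, x i ^ d i) =
      (algebraMap ℂ A (coeff d F)) • mon x (γ + d) := by
    rw [mon_add, Algebra.smul_def]
    have h4 : algebraMap A M (algebraMap ℂ A (coeff d F)) = algebraMap ℂ M (coeff d F) := rfl
    rw [h4]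
    unfold mon
    ring
  rw [h3]
  refine Submodule.smul_mem _ _ (mon_mem A x D _ ?_)
  rw [← hγ, ← h1, ← Finset.sum_add_distrib]
  rfl

theorem step (A : Subalgebra ℂ M) {m q e N D : ℕ} (x : Fin (m + 1) → M) (y : Fin q → M)
    (b : Fin (m + 1) → Fin q → MvPolynomial (Fin (m + 1)) ℂ)
    (hb : ∀ i j, (b i j).IsHomogeneous N)
    (hx : ∀ i, x i ^ (N + e) = ∑ j, aeval x (b i j) * y j) (he : 1 ≤ e)
    (hD : D = (m + 1) * (N + e)) (j₀ : Fin q) (hA : ∀ j, y j / y j₀ ∈ A)
    (i : Fin (m + 1)) (α : Fin (m + 1) → ℕ) (hα : ∑ l, α l = D) :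
    x i ^ e / y j₀ * mon x α ∈ V A x D := by
  have hβ : ∑ l, (α + Pi.single i e : Fin (m + 1) → ℕ) l = D + e := by
    have h1 : ∑ l, (α + Pi.single i e : Fin (m + 1) → ℕ) l =
        ∑ l, α l + ∑ l, (Pi.single i e : Fin (m + 1) → ℕ) l := by
      rw [← Finset.sum_add_distrib]
      rfl
    rw [h1, hα, Finset.sum_pi_single']
    simp
  obtain ⟨β, hβd⟩ : ∃ β : Fin (m + 1) → ℕ, β = α + Pi.single i e := ⟨_, rfl⟩
  rw [← hβd] at hβ
  obtain ⟨l, hl⟩ : ∃ l, N + e ≤ β l := by
    by_contra hcon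
    push Not at hcon
    have h1 : ∑ l, β l ≤ ∑ _l : Fin (m + 1), (N + e - 1) :=
      Finset.sum_le_sum fun l _ => by have := hcon l; omega
    rw [Finset.sum_const, Finset.card_univ, Fintype.card_fin, smul_eq_mul, hβ, hD] at h1
    have h2 : (m + 1) * (N + e - 1) ≤ (m + 1) * (N + e) := Nat.mul_le_mul_left _ (by omega)
    omega
  obtain ⟨γ, hγd⟩ : ∃ γ : Fin (m + 1) → ℕ, γ = β - Pi.single l (N + e) := ⟨_, rfl⟩
  have hγ : γ + Pi.single l (N + e) = β := by
    funext k
    rw [hγd, Pi.add_apply, Pi.sub_apply]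
    by_cases hk : k = l
    · subst hk
      rw [Pi.single_eq_same]
      omega
    · rw [Pi.single_eq_of_ne hk]
      omega
  have hγs : ∑ k, γ k + N = D := by
    have h1 : ∑ k, β k = ∑ k, γ k + ∑ k, (Pi.single l (N + e) : Fin (m + 1) → ℕ) k := by
      rw [← hγ, ← Finset.sum_add_distrib]
      rfl
    rw [hβ, Finset.sum_pi_single'] at h1
    simp at h1
    omega
  have h2 : x i ^ e / y j₀ * mon x α =
      ∑ j, (⟨y j / y j₀, hA j⟩ : A) • (mon x γ * aeval x (b l j)) := by
    have h3 : x i ^ e * mon x α = mon x γ * x l ^ (N + e) := by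
      rw [← mon_single x i e, mul_comm, ← mon_add, ← hβd, ← hγ, mon_add, mon_single]
    have h4 : ∀ j, (⟨y j / y j₀, hA j⟩ : A) • (mon x γ * aeval x (b l j)) =
        mon x γ * (aeval x (b l j) * y j) * (y j₀)⁻¹ := by
      intro j
      show y j / y j₀ * (mon x γ * aeval x (b l j)) = _
      rw [div_eq_mul_inv]
      ring
    rw [Finset.sum_congr rfl fun j _ => h4 j, ← Finset.sum_mul, ← Finset.mul_sum, ← hx l, ← h3,
      div_eq_mul_inv]
    ring
  rw [h2]
  exact Submodule.sum_mem _ fun j _ =>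
    Submodule.smul_mem _ _ (form_mem A x D N γ hγs (b l j) (hb l j))

end INT

theorem p_INT : Stmt_INT := by
  intro M _ _ m q e N x y b he hb hx i₀ j₀ hi₀ hj₀ i
  obtain ⟨A, hA⟩ : ∃ A, A = Algebra.adjoin ℂ (Set.range fun j => y j / y j₀) := ⟨_, rfl⟩
  rw [← hA]
  have hA' : ∀ j, y j / y j₀ ∈ A := fun j => by
    rw [hA]
    exact Algebra.subset_adjoin ⟨j, rfl⟩
  obtain ⟨D, hD⟩ : ∃ D, D = (m + 1) * (N + e) := ⟨_, rfl⟩
  refine isIntegral_of_smul_mem_submodule (INT.V A x D) ?_ ?_ _ ?_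
  · intro h
    have h1 : INT.mon x (Pi.single i₀ D) ∈ INT.V A x D := by
      refine INT.mon_mem A x D _ ?_
      rw [Finset.sum_pi_single']
      simp
    rw [h, Submodule.mem_bot, INT.mon_single] at h1
    exact hi₀ (eq_zero_of_pow_eq_zero h1)
  · exact Submodule.fg_span ((INT.fin_set m D).image _)
  · intro v hv
    unfold INT.V at hv
    induction hv using Submodule.span_induction with
    | mem v hv =>
      obtain ⟨α, hα, rfl⟩ := hv
      exact INT.step A x y b hb hx he hD j₀ hA' i α hα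
    | zero => rw [smul_zero]; exact Submodule.zero_mem _
    | add v w _ _ h1 h2 => rw [smul_add]; exact Submodule.add_mem _ h1 h2
    | smul a v _ h1 =>
      rw [smul_comm]
      exact Submodule.smul_mem _ _ h1

end Pool.ThmM6
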