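import Pool.Agent.Work.MP_f82ddf_M6.Interface

set_option autoImplicit false

/-! # Block TRI of part M6 (helper72) -/

namespace Pool.ThmM6

open MvPolynomial Pool.Agent.Work.MP_f82ddf_nt Pool.Agent.Work.MP_f82ddf_nt.DQ

namespace TRI

open scoped IntermediateField.algebraAdjoinAdjoin in
theorem alg {T : Set Mer} {x : Mer} (hx : IsAlgebraic (IntermediateField.adjoin ℂ T) x) :
    IsAlgebraic (Algebra.adjoin ℂ T) x :=
  (IsFractionRing.isAlgebraic_iff (Algebra.adjoin ℂ T) (IntermediateField.adjoin ℂ T) Mer).2 hx

theorem main {s m : ℕ} (t : Fin s → Mer) (p : Fin m → Mer)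
    (hp : AlgebraicIndependent ℂ p)
    (h : ∀ j, IsAlgebraic (Algebra.adjoin ℂ (Set.range t)) (p j)) :
    ∃ ι : Fin m → Fin s, AlgebraicIndependent ℂ (fun j => t (ι j)) := by
  classical
  let M := AlgebraicIndependent.matroid ℂ Mer
  obtain ⟨B, hB⟩ := M.exists_isBasis (Set.range t) (Set.subset_univ _)
  have hPi : M.Indep (Set.range p) := by
    rw [AlgebraicIndependent.matroid_indep_iff]
    exact hp.to_subtype_range
  have hPc : Set.range p ⊆ M.closure (Set.range t) := by
    rintro _ ⟨j, rfl⟩
    rw [AlgebraicIndependent.matroid_closure_eq]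
    exact (h j)
  have h1 : (Set.range p).encard ≤ M.eRk (Set.range t) := by
    rw [← M.eRk_closure_eq]
    exact hPi.encard_le_eRk_of_subset hPc
  rw [← hB.encard_eq_eRk] at h1
  have hcard : (Set.range p).encard = m := by
    have hinj : Function.Injective p := hp.injective
    rw [← Set.image_univ, hinj.encard_image]
    simp
  rw [hcard] at h1
  have hBfin : B.Finite := (Set.finite_range t).subset hB.subset
  have h2 : m ≤ B.ncard := by
    rw [← hBfin.cast_ncard_eq] at h1
    exact_mod_cast h1
  have : Fintype B := hBfin.fintype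
  have h3 : Fintype.card (Fin m) ≤ Fintype.card B := by
    rw [Fintype.card_fin, ← Nat.card_eq_fintype_card]
    exact h2
  obtain ⟨e⟩ := Function.Embedding.nonempty_of_card_le h3
  have hch : ∀ b : B, ∃ i, t i = (b : Mer) := fun b => hB.subset b.2
  choose g hg using hch
  refine ⟨fun j => g (e j), ?_⟩
  have hBi : AlgebraicIndependent ℂ (fun b : B => (b : Mer)) := hB.indep
  have := hBi.comp e e.injective
  convert this using 1
  funext j
  simp [hg]

end TRI

theorem p_TRI : Stmt_TRI := by
  intro s m t p hp h
  exact TRI.main t p hp fun j => TRI.alg (h j)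

end Pool.ThmM6
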