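import Pool.Agent.Work.MP_f82ddf_M0.Interface

set_option autoImplicit false

/-! # THEOREM M (MP_f82ddf_nt), part M6: varieties with a finite morphism to `Y`

`X` is a projective variety given by a set `S` of forms in `m + 1` variables over `K`; the forms
`h_0, .., h_(q-1)` of degree `e ≥ 1` have no common zero on `X` over the algebraic closure.  A point
`x` of `X` over `Mer` has `y_j = h_j(x)` not all zero, and the quotients `x_i / x_(i₀)` are algebraic
over `ℂ(y_j / y_(j₀))`.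

Block files: `Pool/Agent/Work/MP_f82ddf_M6/B_X.lean`, import this file, namespace `Pool.ThmM6`,
`theorem p_X (h1 : Stmt_U) ... : Stmt_X` with the blocks of the column uses, other lemmas in the
namespace `Pool.ThmM6.X`. -/

namespace Pool.ThmM6

open MvPolynomial Pool.Agent.Work.MP_f82ddf_nt Pool.Agent.Work.MP_f82ddf_nt.DQ

/-- NUL (25 lines).  Nullstellensatz over the algebraic closure.
PROOF.  `MvPolynomial.vanishingIdeal_zeroLocus_eq_radical` with `k = K` and the algebraically closed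
field `AlgebraicClosure K`; `zeroLocus_span`. -/
def Stmt_NUL : Prop :=
  ∀ (K : Type) [Field K] (ι : Type) [Finite ι] (S : Set (MvPolynomial ι K)) (G : MvPolynomial ι K),
    (∀ v : ι → AlgebraicClosure K, (∀ F ∈ S, aeval v F = 0) → aeval v G = 0) →
    ∃ N : ℕ, G ^ N ∈ Ideal.span S

/-- VAN (25 lines), uses NUL.  A polynomial which vanishes on `X` over the algebraic closure vanishes
at the points of `X` over every field extension.  PROOF.  `G ^ N` is in the ideal, so its value at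
`x` is `0` (the kernel of the ring homomorphism `eval₂Hom τ x` contains `S`); a field has no
nilpotents (`N = 0`: then `1` is in the ideal, its value would be `0`, impossible). -/
def Stmt_VAN : Prop :=
  ∀ (K : Type) [Field K] (ι : Type) [Finite ι] (S : Set (MvPolynomial ι K)) (G : MvPolynomial ι K),
    (∀ v : ι → AlgebraicClosure K, (∀ F ∈ S, aeval v F = 0) → aeval v G = 0) →
    ∀ (M : Type) [Field M] (τ : K →+* M) (x : ι → M), (∀ F ∈ S, eval₂ τ x F = 0) →
      eval₂ τ x G = 0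

/-- NCZ (90 lines), uses NUL.  Graded Nullstellensatz.
PROOF.  NUL for `S ∪ range h` and `G = X i`: `X i ^ n_i = s + ∑ c_j h_j` with `s ∈ span S`
(`Ideal.span_union`, `Submodule.mem_sup`, `Submodule.mem_span_range_iff_exists_fun` /
`Ideal.mem_span_range_iff_exists_fun`), and the same for all larger exponents; choose one exponent
`N + e` for all `i`.  Take the homogeneous components of degree `N + e`:
`homogeneousComponent (N + e) (c_j * h_j) = homogeneousComponent N c_j * h_j` (expand `c_j` into its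
components, `IsHomogeneous.mul`, `homogeneousComponent_of_mem`), and the component of an element of
`span S` is in `span S`, because `S` consists of forms (`Submodule.span_induction`, or
`Ideal.homogeneous_span`). -/
def Stmt_NCZ : Prop :=
  ∀ (K : Type) [Field K] (m q e : ℕ) (S : Set (MvPolynomial (Fin (m + 1)) K))
    (h : Fin q → MvPolynomial (Fin (m + 1)) K), (∀ F ∈ S, ∃ d, F.IsHomogeneous d) →
    (∀ j, (h j).IsHomogeneous e) →
    (∀ v : Fin (m + 1) → AlgebraicClosure K, (∀ F ∈ S, aeval v F = 0) →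
      (∀ j, aeval v (h j) = 0) → v = 0) →
    ∃ N : ℕ, ∀ i : Fin (m + 1), ∃ b : Fin q → MvPolynomial (Fin (m + 1)) K,
      (∀ j, (b j).IsHomogeneous N) ∧ X i ^ (N + e) - ∑ j, b j * h j ∈ Ideal.span S

/-- INT (140 lines).  The determinant trick.
PROOF.  Put `t_j = y_j / y_(j₀)`, `A = Algebra.adjoin ℂ (range t)`, `D = (m + 1) * (N + e)`, and let `V`
be the `A`-submodule of `M` spanned by the finitely many monomials `x^α` of degree `D`
(`Finset.finsuppAntidiag`, or the image of the tuples `Fin D → Fin (m + 1)` under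
`g ↦ ∏ x (g l)`).  The value at `x` of every form of degree `D` over `ℂ` is in `V`.  Let
`z = x_i ^ e / y_(j₀)`.  CLAIM `z V ⊆ V`: for `|α| = D` let `x^β = x_i ^ e x^α`, `|β| = D + e`; some
exponent `β_l ≥ N + e` (`(m + 1) (N + e) ≤ D + e`), so `x^β = x^(β - (N+e) l) * ∑ b_lj(x) y_j` and
`z x^α = ∑ t_j * (x^(β - (N+e) l) b_lj(x))`, values of forms of degree `D`.  `V` contains
`x_(i₀) ^ D ≠ 0` and is finitely generated: `isIntegral_of_smul_mem_submodule`. -/
def Stmt_INT : Prop :=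
  ∀ (M : Type) [Field M] [Algebra ℂ M] (m q e N : ℕ) (x : Fin (m + 1) → M) (y : Fin q → M)
    (b : Fin (m + 1) → Fin q → MvPolynomial (Fin (m + 1)) ℂ), 1 ≤ e →
    (∀ i j, (b i j).IsHomogeneous N) → (∀ i, x i ^ (N + e) = ∑ j, aeval x (b i j) * y j) →
    ∀ (i₀ : Fin (m + 1)) (j₀ : Fin q), x i₀ ≠ 0 → y j₀ ≠ 0 → ∀ i : Fin (m + 1),
      IsIntegral (Algebra.adjoin ℂ (Set.range fun j => y j / y j₀)) (x i ^ e / y j₀)

/-- ALQ (70 lines), uses INT.  PROOF.  `(x_i / x_(i₀)) ^ e = (x_i ^ e / y_(j₀)) / (x_(i₀) ^ e / y_(j₀))` is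
algebraic over the field `F = ℂ(t_j)` (integral over `ℂ[t_j] ⊆ F`), and an element with an
algebraic `e`-th power is algebraic (`IsAlgebraic.of_pow`). -/
def Stmt_ALQ : Prop :=
  ∀ (M : Type) [Field M] [Algebra ℂ M] (m q e N : ℕ) (x : Fin (m + 1) → M) (y : Fin q → M)
    (b : Fin (m + 1) → Fin q → MvPolynomial (Fin (m + 1)) ℂ), 1 ≤ e →
    (∀ i j, (b i j).IsHomogeneous N) → (∀ i, x i ^ (N + e) = ∑ j, aeval x (b i j) * y j) →
    ∀ (i₀ : Fin (m + 1)) (j₀ : Fin q), x i₀ ≠ 0 → y j₀ ≠ 0 → ∀ i : Fin (m + 1),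
      IsAlgebraic (IntermediateField.adjoin ℂ (Set.range fun j => y j / y j₀)) (x i / x i₀)

/-- TRI (120 lines).  As `Pool.ThmM0.Stmt_TRD` (file `MP_f82ddf_M0/B_TRD.lean`), with algebraic
elements instead of roots.  PROOF.  Mathlib `AlgebraicIndependent.matroid ℂ M`: the `p_j` are in the
closure of `range t`; a basis of `range t` has at least `m` elements. -/
def Stmt_TRI : Prop :=
  ∀ (s m : ℕ) (t : Fin s → Mer) (p : Fin m → Mer), AlgebraicIndependent ℂ p →
    (∀ j, IsAlgebraic (IntermediateField.adjoin ℂ (Set.range t)) (p j)) →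
    ∃ ι : Fin m → Fin s, AlgebraicIndependent ℂ (fun j => t (ι j))

/-- DEH (60 lines).  PROOF.  `G(X_0, .., X_m) = P(1, X_0, .., X_m)` is not zero (distinct monomials of
the form `P` have distinct exponents of the last `m + 1` variables), and
`G(q_(j+1) / q_0) = q_0 ^ (-e) P(q) = 0`.  (Compare `MP_f82ddf_M0/B_TD1.lean`.) -/
def Stmt_DEH : Prop :=
  ∀ (m : ℕ) (q : Fin (m + 2) → Mer), q 0 ≠ 0 →
    (∃ (e : ℕ) (P : MvPolynomial (Fin (m + 2)) ℂ), P ≠ 0 ∧ P.IsHomogeneous e ∧ aeval q P = 0) →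
    ¬ AlgebraicIndependent ℂ (fun j : Fin (m + 1) => q j.succ / q 0)

/-- FM (150 lines), uses VAN NCZ ALQ TRI DEH and `Pool.ThmM0.Stmt_HOMR` (in this order, HOMR last).
PROOF.  NCZ gives `N` and `b`; the value of an element of `span S` at `x` is `0`, so with
`b' i j = map σ (b i j)`: `x_i ^ (N+e) = ∑ b'_ij(x) y_j`.  (1) If all `y_j = 0` then `x_(i₀) = 0`.  (2) Let
`y_(j₀) ≠ 0` and suppose that `x ∘ s` satisfies no relation.  Then `x_(s 0) ≠ 0` (relation `X_0`), by HOMR
the `x_(s (j+1)) / x_(s 0)` are algebraically independent; by ALQ (`i₀ = s 0`) they are algebraic over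
`ℂ(y_j / y_(j₀))`, TRI gives `ι : Fin (M + 1) → Fin q` with `y_(ι j) / y_(j₀)` algebraically independent;
DEH with `q = Fin.cons y_(j₀) (y ∘ ι)` and the hypothesis for `Fin.cons j₀ ι`: contradiction.
(3) All `y_j / y_(j₀)` are constants, so the field of ALQ is `⊥` and `x_i / x_(i₀)` is algebraic over
`ℂ`, hence a constant (`ℂ` is algebraically closed: `IsAlgClosed.algebraMap_bijective_of_isIntegral`
or a root of a polynomial which splits). -/
def Stmt_FM : Prop :=
  ∀ (K : Type) [Field K] (m q e : ℕ) (S : Set (MvPolynomial (Fin (m + 1)) K))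
    (h : Fin q → MvPolynomial (Fin (m + 1)) K), 1 ≤ e → (∀ F ∈ S, ∃ d, F.IsHomogeneous d) →
    (∀ j, (h j).IsHomogeneous e) →
    (∀ v : Fin (m + 1) → AlgebraicClosure K, (∀ F ∈ S, aeval v F = 0) →
      (∀ j, aeval v (h j) = 0) → v = 0) →
    ∀ (σ : K →+* ℂ) (x : Fin (m + 1) → Mer) (i₀ : Fin (m + 1)), x i₀ ≠ 0 →
    (∀ F ∈ S, eval₂ ((algebraMap ℂ Mer).comp σ) x F = 0) →
    ∀ y : Fin q → Mer, (∀ j, y j = eval₂ ((algebraMap ℂ Mer).comp σ) x (h j)) →
      (∃ j, y j ≠ 0) ∧
      (∀ M : ℕ, (∀ s : Fin (M + 2) → Fin q, ∃ (d : ℕ) (P : MvPolynomial (Fin (M + 2)) ℂ),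
          P ≠ 0 ∧ P.IsHomogeneous d ∧ aeval (fun i => y (s i)) P = 0) →
        ∀ s : Fin (M + 2) → Fin (m + 1), ∃ (d : ℕ) (P : MvPolynomial (Fin (M + 2)) ℂ),
          P ≠ 0 ∧ P.IsHomogeneous d ∧ aeval (fun i => x (s i)) P = 0) ∧
      ∀ j₀, y j₀ ≠ 0 → (∀ j, ∃ c : ℂ, y j = algebraMap ℂ Mer c * y j₀) →
        ∀ i, ∃ c : ℂ, x i = algebraMap ℂ Mer c * x i₀

end Pool.ThmM6
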